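import Pool.Agent.W58.GU.Stm

/-! Project GU: operators with large diagonal are invertible on a tail of `Z`. -/

namespace Pool.Agent.W451.GU
open Finset Filter Topology
open Pool.Agent.W58.GU

section
variable {P : Par} {X : Type} [NormedAddCommGroup X] [NormedSpace ℝ X] (M : Model P X)

theorem abs_e'_inr (x : X) (a : ℕ) : |M.e' (Sum.inr a) x| ≤ ‖x‖ := by
  have := M.n2 x _ (InK.single P a)
  rw [pr_single] at this
  simpa using this

theorem proj_in {A : Set (ℕ ⊕ ℕ)} {Q : X →L[ℝ] X} (hQ : M.IsProj A Q) {i : ℕ ⊕ ℕ} (h : i ∈ A)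
    (x : X) : M.e' i (Q x) = M.e' i x := (hQ i x).1 h

theorem proj_out {A : Set (ℕ ⊕ ℕ)} {Q : X →L[ℝ] X} (hQ : M.IsProj A Q) {i : ℕ ⊕ ℕ} (h : i ∉ A)
    (x : X) : M.e' i (Q x) = 0 := (hQ i x).2 h

theorem proj_idem {A : Set (ℕ ⊕ ℕ)} {Q : X →L[ℝ] X} (hQ : M.IsProj A Q) (x : X) :
    Q (Q x) = Q x := by
  refine M.ext (fun i => ?_)
  by_cases h : i ∈ A
  · rw [proj_in M hQ h, proj_in M hQ h]
  · rw [proj_out M hQ h, proj_out M hQ h]

/-- a multiplier with bounded coefficients -/
theorem mul_bdd (hM : S_MUL) [CompleteSpace X] (d : ℕ ⊕ ℕ → ℝ) (C : ℝ) (hC : 0 < C)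
    (hd : ∀ i, |d i| ≤ C) : ∃ D : X →L[ℝ] X, ∀ i x, M.e' i (D x) = d i * M.e' i x := by
  obtain ⟨D, -, hD⟩ := hM P X M (fun i => d i / C) (fun i => by
    rw [abs_div, abs_of_pos hC]
    exact (div_le_one hC).mpr (hd i))
  refine ⟨C • D, fun i x => ?_⟩
  rw [smul_apply, map_smul, hD, smul_eq_mul]
  field_simp

theorem cR_iff (N a : ℕ) : Sum.inr a ∈ cR N ↔ N ≤ a := by
  constructor
  · rintro ⟨b, hb, h⟩
    rw [Sum.inr.injEq] at h
    omega
  · intro h
    exact ⟨a, h, rfl⟩

theorem cR_inl (N n : ℕ) : Sum.inl n ∉ cR N := by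
  rintro ⟨b, hb, h⟩
  exact Sum.inl_ne_inr h

/-- approximation of the vectors of the tail by finitely supported ones -/
theorem tail_dense {N : ℕ} {v : X} (hv : ∀ i, i ∉ cR N → M.e' i v = 0) {p : X → Prop}
    (hp : IsClosed {w | p w}) (h : ∀ z : ℕ →₀ ℝ, (∀ a ∈ z.support, N ≤ a) → p (M.emb z)) : p v := by
  have h1 := M.hs v
  refine hp.mem_of_tendsto h1 (Eventually.of_forall fun F => ?_)
  show p (∑ i ∈ F, M.e' i v • M.e i)
  classical
  have key : ∃ z : ℕ →₀ ℝ, (∀ a ∈ z.support, N ≤ a) ∧ M.emb z = ∑ i ∈ F, M.e' i v • M.e i := by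
    induction F using Finset.induction_on with
    | empty => exact ⟨0, by simp, by simp [M.emb_zero]⟩
    | insert i F hi ih =>
      obtain ⟨z, hz, hze⟩ := ih
      by_cases hiN : i ∈ cR N
      · obtain ⟨a, ha, rfl⟩ := hiN
        refine ⟨z + Finsupp.single a (M.e' (Sum.inr a) v), ?_, ?_⟩
        · intro b hb
          have := Finsupp.support_add hb
          rw [Finset.mem_union] at this
          rcases this with h | h
          · exact hz b h
          · have := Finsupp.support_single_subset h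
            rw [Finset.mem_singleton] at this
            omega
        · rw [M.emb_add, M.emb_single, hze, Finset.sum_insert hi, add_comm]
      · refine ⟨z, hz, ?_⟩
        rw [Finset.sum_insert hi, hv i hiN, zero_smul, zero_add, hze]
  obtain ⟨z, hz, hze⟩ := key
  rw [← hze]
  exact h z hz

end

theorem ti (hL : S_LOW) (hM : S_MUL) (hC : S_CONT) : S_TI := by
  intro P X _ _ _ M T δ hδ hd
  obtain ⟨N, c, hc, hlow⟩ := hL P X M T δ hδ hd
  refine ⟨N, fun Q hQ => ?_⟩
  classical
  set da : ℕ → ℝ := fun a => M.e' (Sum.inr a) (T (M.e (Sum.inr a))) with hda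
  -- multiplier
  have hdT : ∀ a, |da a| ≤ ‖T‖ := by
    intro a
    refine (abs_e'_inr M _ a).trans ?_
    refine (T.le_opNorm _).trans ?_
    calc ‖T‖ * ‖M.e (Sum.inr a)‖ ≤ ‖T‖ * 1 :=
          mul_le_mul_of_nonneg_left (M.norm_e _) (norm_nonneg _)
      _ = ‖T‖ := mul_one _
  have hda0 : ∀ a, da a ≠ 0 := by
    intro a h
    have := hd a
    simp only [hda] at h
    rw [h, abs_zero] at this
    linarith
  set α : ℕ ⊕ ℕ → ℝ := fun i => Sum.elim (fun _ => 1) (fun a => if N ≤ a then da a else 1) i with hα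
  have hα1 : ∀ i, i ∉ cR N → α i = 1 := by
    intro i hi
    rcases i with n | a
    · rfl
    · rw [cR_iff] at hi
      simp only [hα, Sum.elim_inr, if_neg hi]
  have hα2 : ∀ a, N ≤ a → α (Sum.inr a) = da a := by
    intro a ha
    simp only [hα, Sum.elim_inr, if_pos ha]
  have hα0 : ∀ i, α i ≠ 0 := by
    intro i
    by_cases hi : i ∈ cR N
    · obtain ⟨a, ha, rfl⟩ := hi
      rw [hα2 a ha]
      exact hda0 a
    · rw [hα1 i hi]
      exact one_ne_zero
  obtain ⟨A, hA⟩ := mul_bdd M hM α (‖T‖ + 1) (by positivity) (fun i => by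
    by_cases hi : i ∈ cR N
    · obtain ⟨a, ha, rfl⟩ := hi
      rw [hα2 a ha]
      exact (hdT a).trans (by linarith)
    · rw [hα1 i hi, abs_one]
      linarith [norm_nonneg T])
  obtain ⟨A', hA'⟩ := mul_bdd M hM (fun i => (α i)⁻¹) (1 / δ + 1) (by positivity) (fun i => by
    rw [abs_inv]
    by_cases hi : i ∈ cR N
    · obtain ⟨a, ha, rfl⟩ := hi
      rw [hα2 a ha]
      have h1 : δ ≤ |da a| := hd a
      have h2 : |da a|⁻¹ ≤ δ⁻¹ := inv_anti₀ hδ h1
      rw [one_div]
      linarith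
    · rw [hα1 i hi, abs_one]
      have : 0 < 1 / δ := by positivity
      rw [inv_one]
      linarith)
  have hunitA : IsUnit A := by
    refine ⟨⟨A, A', ?_, ?_⟩, rfl⟩
    · ext x
      refine M.ext (fun i => ?_)
      rw [mul_apply_eq_comp, hA, hA', ← mul_assoc, mul_inv_cancel₀ (hα0 i), one_mul,
        one_apply_eq_self]
    · ext x
      refine M.ext (fun i => ?_)
      rw [mul_apply_eq_comp, hA', hA, ← mul_assoc, inv_mul_cancel₀ (hα0 i), one_mul,
        one_apply_eq_self]
  set B : X →L[ℝ] X := (1 - Q) + Q * T * Q with hB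
  have hBx : ∀ x, B x = (x - Q x) + Q (T (Q x)) := by
    intro x
    rw [hB]
    simp
  -- coordinates of the combination
  have hout : ∀ (t : ℝ) (x : X) (i : ℕ ⊕ ℕ), i ∉ cR N →
      M.e' i ((1 - t) • A x + t • B x) = M.e' i x := by
    intro t x i hi
    rw [map_add, map_smul, map_smul, hA, hα1 i hi, hBx, map_add, map_sub, proj_out M hQ hi,
      proj_out M hQ hi]
    simp only [smul_eq_mul]
    ring
  have hin : ∀ (t : ℝ) (x : X) (a : ℕ), N ≤ a →
      M.e' (Sum.inr a) ((1 - t) • A x + t • B x) =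
        (1 - t) * da a * M.e' (Sum.inr a) x + t * M.e' (Sum.inr a) (T (Q x)) := by
    intro t x a ha
    have hi : (Sum.inr a : ℕ ⊕ ℕ) ∈ cR N := (cR_iff N a).mpr ha
    rw [map_add, map_smul, map_smul, hA, hα2 a ha, hBx, map_add, map_sub, proj_in M hQ hi,
      proj_in M hQ hi]
    simp only [smul_eq_mul]
    ring
  have hlow1 : ∀ t : ℝ, 0 ≤ t → t ≤ 1 → ∀ v : X, Q v = v →
      c * ‖v‖ ≤ ‖(1 - t) • A v + t • B v‖ := by
    intro t ht0 ht1 v hv
    have hv' : ∀ i, i ∉ cR N → M.e' i v = 0 := by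
      intro i hi
      rw [← hv]
      exact proj_out M hQ hi v
    refine tail_dense M hv' (p := fun v => c * ‖v‖ ≤ ‖(1 - t) • A v + t • B v‖) ?_ ?_
    · exact isClosed_le (by fun_prop) (by fun_prop)
    · intro z hz
      rw [M.norm_emb]
      refine hlow t ht0 ht1 z hz _ (fun f hf hfN => ?_)
      have hQz : Q (M.emb z) = M.emb z := by
        refine M.ext (fun i => ?_)
        by_cases hi : i ∈ cR N
        · rw [proj_in M hQ hi]
        · rw [proj_out M hQ hi, M.e'_emb]
          rcases i with n | a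
          · rfl
          · rw [Sum.elim_inr]
            rw [cR_iff] at hi
            by_contra h
            exact hi (hz a (Finsupp.mem_support_iff.mpr (Ne.symm h)))
      have e1 : pr f (fun a => (1 - t) * (M.e' (Sum.inr a) (T (M.e (Sum.inr a)))) * z a +
          t * M.co (T (M.emb z)) a) = pr f (M.co ((1 - t) • A (M.emb z) + t • B (M.emb z))) := by
        refine pr_congr (fun a ha => ?_)
        have haN := hfN a ha
        show _ = M.e' (Sum.inr a) _
        rw [hin t _ a haN, hQz, M.e'_emb]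
        rfl
      rw [e1]
      exact M.abs_pr_co _ hf
  have hlow2 : ∀ t : ℝ, 0 ≤ t → t ≤ 1 → ∀ x : X,
      c / (c + 1) * ‖x‖ ≤ ‖(1 - t) • A x + t • B x‖ := by
    intro t ht0 ht1 x
    have h1 : ‖x - Q x‖ ≤ ‖(1 - t) • A x + t • B x‖ := by
      refine M.lat (fun i => ?_)
      by_cases hi : i ∈ cR N
      · rw [map_sub, proj_in M hQ hi, sub_self, abs_zero]
        exact abs_nonneg _
      · rw [hout t x i hi, map_sub, proj_out M hQ hi, sub_zero]
    have h2 : c * ‖Q x‖ ≤ ‖(1 - t) • A x + t • B x‖ := by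
      refine (hlow1 t ht0 ht1 (Q x) (proj_idem M hQ x)).trans ?_
      refine M.lat (fun i => ?_)
      by_cases hi : i ∈ cR N
      · obtain ⟨a, ha, rfl⟩ := hi
        rw [hin t _ a ha, hin t _ a ha, proj_idem M hQ, proj_in M hQ ((cR_iff N a).mpr ha)]
      · rw [hout t _ i hi, proj_out M hQ hi, abs_zero]
        exact abs_nonneg _
    have h3 : ‖x‖ ≤ ‖x - Q x‖ + ‖Q x‖ := by
      have := norm_add_le (x - Q x) (Q x)
      simpa using this
    have hc1 : 0 < c + 1 := by linarith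
    rw [div_mul_eq_mul_div, div_le_iff₀ hc1]
    nlinarith
  have hunitB : IsUnit B := hC X A B (c / (c + 1)) (by positivity) hunitA hlow2
  obtain ⟨⟨B1, B', hBB', hB'B⟩, hB0⟩ := hunitB
  simp only at hB0
  rw [hB0] at hBB' hB'B
  have hQQ : Q * Q = Q := by
    ext x
    exact proj_idem M hQ x
  have hBQ : B * Q = Q * T * Q := by
    rw [hB, add_mul, sub_mul, one_mul, mul_assoc (Q * T) Q Q, hQQ, sub_self, zero_add]
  have hQB : Q * B = Q * T * Q := by
    rw [hB, mul_add, mul_sub, mul_one, ← mul_assoc, ← mul_assoc, hQQ, sub_self, zero_add]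
  have hcomm : Q * B' = B' * Q := by
    calc Q * B' = (B' * B) * Q * B' := by rw [hB'B, one_mul]
      _ = B' * (B * Q) * B' := by rw [mul_assoc B' B Q]
      _ = B' * (Q * B) * B' := by rw [hBQ, hQB]
      _ = B' * Q * (B * B') := by simp only [mul_assoc]
      _ = B' * Q := by rw [hBB', mul_one]
  refine ⟨B' * Q, ?_, ?_, ?_, ?_⟩
  · show (B' * Q) * Q = B' * Q
    rw [mul_assoc, hQQ]
  · show Q * (B' * Q) = B' * Q
    rw [← mul_assoc, hcomm, mul_assoc, hQQ]
  · show (B' * Q) * (T * Q) = Q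
    calc (B' * Q) * (T * Q) = B' * (Q * T * Q) := by simp only [mul_assoc]
      _ = B' * (B * Q) := by rw [hBQ]
      _ = Q := by rw [← mul_assoc, hB'B, one_mul]
  · show Q * (T * (B' * Q)) = Q
    calc Q * (T * (B' * Q)) = Q * (T * (Q * B')) := by rw [hcomm]
      _ = (Q * T * Q) * B' := by simp only [mul_assoc]
      _ = (Q * B) * B' := by rw [hQB]
      _ = Q := by rw [mul_assoc, hBB', mul_one]

end Pool.Agent.W451.GU
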